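import Mathlib

/-!
# Rigidity of the near-group system, hence algebraicity of its solutions

`G` is a finite abelian group with a symmetric pairing `e` (values in `k`), `s, kappa` in `k`,
`kappa ^ 2 = |G|`.  A solution is a pair of functions `a, b` on `G` with `a 0 = b 0 = s`, `a w * b w = 1` for
`w ≠ 0`, `b w * b (-w) = gamma w` in `k` and
`∑ w, e w v * a w * b (w - p) = kappa * b (-p) * b (-v) * a (-p - v)` for all `p ≠ 0` and all `v`.
If `|G| ≠ 2 (s ^ 2 - 1)` then every value `b w` is algebraic over `k`.
-/

open Finset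

namespace Pool.Agent.Stark

/-- The near-group system. -/
structure Sol {G R : Type*} [AddCommGroup G] [Fintype G] [CommRing R] (e : G → G → R) (s κ : R)
    (a b : G → R) : Prop where
  a0 : a 0 = s
  b0 : b 0 = s
  ab : ∀ w, w ≠ 0 → a w * b w = 1
  eq : ∀ p, p ≠ 0 → ∀ v, ∑ w, e w v * (a w * b (w - p)) = κ * (b (-p) * b (-v) * a (-p - v))

section

variable {G L V : Type*} [AddCommGroup G] [Fintype G] [DecidableEq G] [Field L]
  [AddCommGroup V] [Module L V] {e : G → G → L} {s κ : L} {a b : G → L}

private theorem transf (h : Sol e s κ a b) (hsym : ∀ w v, e w v = e v w)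
    (hneg : ∀ w v, e (-w) (-v) = e w v)
    (horth : ∀ w u, ∑ v, e w v * e u (-v) = if w = u then (Fintype.card G : L) else 0)
    {p : G} (hp : p ≠ 0) (u : G) :
    κ * b (-p) * ∑ w, e w u * (b w * a (w - p)) = (Fintype.card G : L) * (a u * b (u - p)) := by
  have h1 : ∑ v, e v (-u) * (κ * (b (-p) * b (-v) * a (-p - v))) =
      ∑ v, e v (-u) * ∑ w, e w v * (a w * b (w - p)) :=
    sum_congr rfl fun v _ => by rw [h.eq p hp v]
  have h2 : ∑ v, e v (-u) * ∑ w, e w v * (a w * b (w - p)) =
      (Fintype.card G : L) * (a u * b (u - p)) := by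
    simp_rw [mul_sum]
    rw [sum_comm]
    have h3 : ∀ w, ∑ v, e v (-u) * (e w v * (a w * b (w - p))) =
        if w = u then (Fintype.card G : L) * (a w * b (w - p)) else 0 := by
      intro w
      have h4 : ∑ v, e v (-u) * (e w v * (a w * b (w - p))) =
          (∑ v, e w v * e u (-v)) * (a w * b (w - p)) := by
        rw [sum_mul]
        refine sum_congr rfl fun v _ => ?_
        have h5 : e v (-u) = e u (-v) := by
          rw [hsym v (-u), ← hneg (-u) v, neg_neg]
        rw [h5]
        ring
      rw [h4, horth w u]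
      split_ifs with h6
      · rfl
      · rw [zero_mul]
    rw [sum_congr rfl fun w _ => h3 w, sum_ite_eq' univ u, if_pos (mem_univ u)]
  rw [← h2, ← h1, mul_sum]
  rw [← Equiv.sum_comp (Equiv.neg G)]
  refine sum_congr rfl fun v _ => ?_
  simp only [Equiv.neg_apply]
  have h5 : e (-v) u = e v (-u) := by rw [← hneg (-v) u, neg_neg]
  have h6 : -v - p = -p - v := by abel
  rw [h5, h6]
  ring

private theorem key {k : Type*} [Field k] [Algebra k L] [Module k V] [IsScalarTower k L V]
    (h : Sol e s κ a b) (hsym : ∀ w v, e w v = e v w)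
    (hneg : ∀ w v, e (-w) (-v) = e w v)
    (horth : ∀ w u, ∑ v, e w v * e u (-v) = if w = u then (Fintype.card G : L) else 0)
    (hG : (Fintype.card G : L) ≠ 0) (hb : ∀ w, b w ≠ 0)
    (hθ : (Fintype.card G : L) - 2 * (s ^ 2 - 1) ≠ 0)
    (D : Derivation k L V) (hDe : ∀ w v, D (e w v) = 0) (hDs : D s = 0) (hDκ : D κ = 0)
    (hDg : ∀ w, w ≠ 0 → D (b w * b (-w)) = 0) (p : G) : D (b p) = 0 := by
  by_cases hp : p = 0
  · rw [hp, h.b0, hDs]
  set β : G → V := fun w => (b w)⁻¹ • D (b w) with hβ
  have hDb : ∀ w, D (b w) = b w • β w := by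
    intro w
    rw [hβ]
    simp only
    rw [smul_smul, mul_inv_cancel₀ (hb w), one_smul]
  have hβ0 : β 0 = 0 := by
    rw [hβ]
    simp only
    rw [h.b0, hDs, smul_zero]
  clear_value β
  have hDa : ∀ w, D (a w) = -(a w • β w) := by
    intro w
    by_cases hw : w = 0
    · rw [hw, h.a0, hDs, hβ0, smul_zero, neg_zero]
    · have h1 : D (a w * b w) = 0 := by
        rw [h.ab w hw]
        exact D.map_one_eq_zero
      rw [Derivation.leibniz, hDb] at h1
      have h2 : b w • D (a w) = -(a w • b w • β w) := by
        rw [eq_neg_iff_add_eq_zero, add_comm]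
        exact h1
      have h3 : D (a w) = (b w)⁻¹ • (b w • D (a w)) := by
        rw [smul_smul, inv_mul_cancel₀ (hb w), one_smul]
      rw [h3, h2, smul_neg, smul_smul, smul_smul]
      congr 2
      have := hb w
      field_simp
  have hodd : ∀ w, β (-w) = -β w := by
    intro w
    by_cases hw : w = 0
    · rw [hw, neg_zero, hβ0, neg_zero]
    · have h1 := hDg w hw
      rw [Derivation.leibniz, hDb, hDb, smul_smul, smul_smul, mul_comm (b (-w)) (b w),
        ← smul_add] at h1
      have h2 : b w * b (-w) ≠ 0 := mul_ne_zero (hb w) (hb (-w))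
      rcases smul_eq_zero.1 h1 with h3 | h3
      · exact absurd h3 h2
      · exact eq_neg_of_add_eq_zero_left h3
  -- the linearised equation
  have hlin : ∀ v, ∑ w, (e w v * (a w * b (w - p))) • (β (w - p) - β w) =
      (κ * (b (-p) * b (-v) * a (-p - v))) • (β (-p) + β (-v) - β (-p - v)) := by
    intro v
    have h1 := congrArg D (h.eq p hp v)
    rw [map_sum] at h1
    have h2 : ∀ w, D (e w v * (a w * b (w - p))) =
        (e w v * (a w * b (w - p))) • (β (w - p) - β w) := by
      intro w
      rw [Derivation.leibniz, hDe, smul_zero, add_zero, Derivation.leibniz, hDa, hDb]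
      module
    rw [sum_congr rfl fun w _ => h2 w] at h1
    rw [h1, Derivation.leibniz, hDκ, smul_zero, add_zero, Derivation.leibniz, Derivation.leibniz,
      hDa, hDb, hDb]
    module
  -- multiply by the transform of the other function and sum
  have hsum : ∑ w, ((b w * a (w - p)) * (a w * b (w - p))) • (β (w - p) - β w) =
      ∑ v, ((a (-v) * b (-v - p)) * (b (-v) * a (-p - v))) • (β (-p) + β (-v) - β (-p - v)) := by
    have h1 : ∑ v, (∑ u, e u (-v) * (b u * a (u - p))) •
        ∑ w, (e w v * (a w * b (w - p))) • (β (w - p) - β w) =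
        (Fintype.card G : L) • ∑ w, ((b w * a (w - p)) * (a w * b (w - p))) • (β (w - p) - β w) := by
      have h2 : ∀ v, (∑ u, e u (-v) * (b u * a (u - p))) •
          ∑ w, (e w v * (a w * b (w - p))) • (β (w - p) - β w) =
          ∑ w, ∑ u, ((e w v * e u (-v)) * ((b u * a (u - p)) * (a w * b (w - p)))) •
            (β (w - p) - β w) := by
        intro v
        rw [smul_sum]
        refine sum_congr rfl fun w _ => ?_
        rw [smul_smul, sum_mul, sum_smul]
        refine sum_congr rfl fun u _ => ?_
        congr 1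
        ring
      rw [sum_congr rfl fun v _ => h2 v, sum_comm, smul_sum]
      refine sum_congr rfl fun w _ => ?_
      rw [sum_comm]
      have h3 : ∀ u, ∑ v, ((e w v * e u (-v)) * ((b u * a (u - p)) * (a w * b (w - p)))) •
          (β (w - p) - β w) = if w = u then ((Fintype.card G : L) *
            ((b u * a (u - p)) * (a w * b (w - p)))) • (β (w - p) - β w) else 0 := by
        intro u
        rw [← sum_smul, ← sum_mul, horth w u]
        split_ifs with h4
        · rfl
        · rw [zero_mul, zero_smul]
      rw [sum_congr rfl fun u _ => h3 u, sum_ite_eq univ w, if_pos (mem_univ w), ← smul_smul]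
    have h4 : ∑ v, (∑ u, e u (-v) * (b u * a (u - p))) •
        ∑ w, (e w v * (a w * b (w - p))) • (β (w - p) - β w) =
        (Fintype.card G : L) • ∑ v, ((a (-v) * b (-v - p)) * (b (-v) * a (-p - v))) •
          (β (-p) + β (-v) - β (-p - v)) := by
      rw [smul_sum]
      refine sum_congr rfl fun v _ => ?_
      rw [hlin v, smul_smul, smul_smul]
      congr 1
      have h5 := transf h hsym hneg horth hp (-v)
      calc (∑ u, e u (-v) * (b u * a (u - p))) * (κ * (b (-p) * b (-v) * a (-p - v)))
          = (κ * b (-p) * ∑ u, e u (-v) * (b u * a (u - p))) * (b (-v) * a (-p - v)) := by ring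
        _ = _ := by rw [h5]; ring
    rw [h1] at h4
    exact smul_right_injective V hG h4
  -- evaluate both sides
  have hA : ∀ w, a w * b w = 1 + (if w = 0 then s ^ 2 - 1 else 0) := by
    intro w
    split_ifs with hw
    · rw [hw, h.a0, h.b0]
      ring
    · rw [h.ab w hw, add_zero]
  have hL : ∑ w, ((b w * a (w - p)) * (a w * b (w - p))) • (β (w - p) - β w) =
      (-2 * (s ^ 2 - 1)) • β p := by
    have h1 : ∀ w, ((b w * a (w - p)) * (a w * b (w - p))) • (β (w - p) - β w) =
        (β (w - p) - β w) + ((if w = 0 then (s ^ 2 - 1) • (β (-p) - β 0) else 0) +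
          (if w = p then (s ^ 2 - 1) • (β 0 - β p) else 0)) := by
      intro w
      have h2 : (b w * a (w - p)) * (a w * b (w - p)) = (a w * b w) * (a (w - p) * b (w - p)) := by
        ring
      rw [h2, hA, hA]
      by_cases hw : w = 0
      · rw [if_pos hw, if_pos hw, if_neg (by rw [hw, zero_sub]; exact neg_ne_zero.2 hp),
          if_neg (by rw [hw]; exact Ne.symm hp), hw, zero_sub]
        module
      · by_cases hw' : w = p
        · rw [if_neg hw, if_neg hw, if_pos hw', if_pos (by rw [hw', sub_self]), hw', sub_self]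
          module
        · rw [if_neg hw, if_neg hw, if_neg hw', if_neg (sub_ne_zero.2 hw')]
          module
    rw [sum_congr rfl fun w _ => h1 w, sum_add_distrib, sum_add_distrib, sum_ite_eq' univ (0 : G),
      sum_ite_eq' univ p, if_pos (mem_univ _), if_pos (mem_univ _), sum_sub_distrib]
    have h3 : ∑ w, β (w - p) = ∑ w, β w := Equiv.sum_comp (Equiv.subRight p) β
    rw [h3, sub_self, hβ0, hodd p]
    module
  have hR : ∑ v, ((a (-v) * b (-v - p)) * (b (-v) * a (-p - v))) • (β (-p) + β (-v) - β (-p - v)) =
      (-(Fintype.card G : L)) • β p := by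
    have h1 : ∀ v, ((a (-v) * b (-v - p)) * (b (-v) * a (-p - v))) • (β (-p) + β (-v) - β (-p - v)) =
        β (-p) + (β (-v) - β (-p - v)) := by
      intro v
      have h0 : -v - p = -p - v := by abel
      have h2 : (a (-v) * b (-v - p)) * (b (-v) * a (-p - v)) =
          (a (-v) * b (-v)) * (a (-p - v) * b (-p - v)) := by
        rw [h0]
        ring
      rw [h2, hA, hA]
      by_cases hv : v = 0
      · rw [if_pos (by rw [hv, neg_zero]), if_neg (by rw [hv, sub_zero]; exact neg_ne_zero.2 hp), hv,
          neg_zero, sub_zero, hβ0]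
        module
      · by_cases hv' : v = -p
        · rw [if_neg (neg_ne_zero.2 hv), if_pos (by rw [hv']; abel), hv', neg_neg, hodd p]
          have : -p - -p = (0 : G) := by abel
          rw [this, hβ0]
          module
        · have h3 : -p - v ≠ 0 := by
            intro h4
            apply hv'
            rw [sub_eq_zero] at h4
            exact h4.symm
          rw [if_neg (neg_ne_zero.2 hv), if_neg h3]
          module
    rw [sum_congr rfl fun v _ => h1 v, sum_add_distrib, sum_sub_distrib, sum_const, card_univ]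
    have h3 : ∑ v, β (-v) = ∑ w, β w := Equiv.sum_comp (Equiv.neg G) β
    have h4 : ∑ v, β (-p - v) = ∑ w, β w := Equiv.sum_comp (Equiv.subLeft (-p)) β
    rw [h3, h4, sub_self, add_zero, hodd p, ← Nat.cast_smul_eq_nsmul L]
    module
  rw [hL, hR] at hsum
  have hfin : ((Fintype.card G : L) - 2 * (s ^ 2 - 1)) • β p = 0 := by
    have : ((Fintype.card G : L) - 2 * (s ^ 2 - 1)) • β p =
        (-2 * (s ^ 2 - 1)) • β p - (-(Fintype.card G : L)) • β p := by module
    rw [this, hsum, sub_self]
  rcases smul_eq_zero.1 hfin with h1 | h1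
  · exact absurd h1 hθ
  · rw [hDb, h1, smul_zero]

end

/-- If the universal derivation kills the elements of a finite set then the field generated by this set is
algebraic. -/
theorem isAlgebraic_of_universal_derivation {k K : Type*} [Field k] [Field K] [Algebra k K]
    {S : Set K} (hS : S.Finite)
    (hD : ∀ x (hx : x ∈ S), KaehlerDifferential.D k (IntermediateField.adjoin k S)
      ⟨x, IntermediateField.subset_adjoin k S hx⟩ = 0) {x : K} (hx : x ∈ S) : IsAlgebraic k x := by
  set L := IntermediateField.adjoin k S with hL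
  have h0 : ∀ y (hy : y ∈ L), KaehlerDifferential.D k L ⟨y, hy⟩ = 0 := by
    intro y hy
    refine IntermediateField.adjoin_induction k
      (p := fun z hz => KaehlerDifferential.D k L ⟨z, hz⟩ = 0) ?_ ?_ ?_ ?_ ?_ hy
    · intro z hz
      exact hD z hz
    · intro z
      exact (KaehlerDifferential.D k L).map_algebraMap z
    · intro y z hy hz h1 h2
      have : (⟨y + z, add_mem hy hz⟩ : L) = ⟨y, hy⟩ + ⟨z, hz⟩ := rfl
      rw [this, map_add, h1, h2, add_zero]
    · intro y hy h1
      have : (⟨y⁻¹, inv_mem hy⟩ : L) = (⟨y, hy⟩ : L)⁻¹ := rfl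
      rw [this]
      by_cases h2 : (⟨y, hy⟩ : L) = 0
      · rw [h2, inv_zero, map_zero]
      · have h3 := (KaehlerDifferential.D k L).leibniz (⟨y, hy⟩ : L) (⟨y, hy⟩ : L)⁻¹
        rw [mul_inv_cancel₀ h2, Derivation.map_one_eq_zero, h1, smul_zero, add_zero] at h3
        rcases smul_eq_zero.1 h3.symm with h4 | h4
        · exact absurd h4 h2
        · exact h4
    · intro y z hy hz h1 h2
      have : (⟨y * z, mul_mem hy hz⟩ : L) = ⟨y, hy⟩ * ⟨z, hz⟩ := rfl
      rw [this, Derivation.leibniz, h1, h2, smul_zero, smul_zero, add_zero]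
  have h1 : Algebra.FormallyUnramified k L := by
    constructor
    have h2 : Submodule.span L (Set.range (KaehlerDifferential.D k L)) = ⊥ := by
      rw [Submodule.span_eq_bot]
      rintro _ ⟨y, rfl⟩
      exact h0 y.1 y.2
    rw [KaehlerDifferential.span_range_derivation] at h2
    exact (Submodule.subsingleton_iff L).1 (subsingleton_of_bot_eq_top h2.symm)
  have h2 : Algebra.EssFiniteType k L :=
    IntermediateField.essFiniteType_iff.2 (IntermediateField.fg_adjoin_of_finite hS)
  have h3 : Algebra.IsSeparable k L := (Algebra.FormallyUnramified.iff_isSeparable k L).1 h1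
  have h4 : IsAlgebraic k (⟨x, IntermediateField.subset_adjoin k S hx⟩ : L) :=
    (Algebra.IsSeparable.isIntegral k _).isAlgebraic
  exact (isAlgebraic_algebraMap_iff (algebraMap L K).injective).2 h4

/-- **Algebraicity.**  A solution of the near-group system with pairing, `s`, `kappa` and `gamma` in the field `k` of
characteristic zero has all its values algebraic over `k`, if `|G| ≠ 2 (s ^ 2 - 1)`. -/
theorem Sol.isAlgebraic {G k K : Type*} [AddCommGroup G] [Fintype G] [Field k] [CharZero k] [Field K]
    [Algebra k K] {e : G → G → k} {s κ : k} {γ : G → k} {a b : G → K}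
    (h : Sol (fun w v => algebraMap k K (e w v)) (algebraMap k K s) (algebraMap k K κ) a b)
    (hsym : ∀ w v, e w v = e v w) (hneg : ∀ w v, e (-w) (-v) = e w v)
    (horth : ∀ w u, w ≠ u → ∑ v, e w v * e u (-v) = 0)
    (horth' : ∀ w, ∑ v, e w v * e w (-v) = Fintype.card G)
    (hs : s ≠ 0) (hθ : (Fintype.card G : k) - 2 * (s ^ 2 - 1) ≠ 0)
    (hγ : ∀ w, w ≠ 0 → b w * b (-w) = algebraMap k K (γ w)) (p : G) : IsAlgebraic k (b p) := by
  classical
  have hinj : Function.Injective (algebraMap k K) := (algebraMap k K).injective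
  set L := IntermediateField.adjoin k (Set.range b) with hL
  have hb : ∀ w, b w ≠ 0 := by
    intro w
    by_cases hw : w = 0
    · rw [hw, h.b0]
      exact (map_ne_zero _).2 hs
    · intro h1
      have := h.ab w hw
      rw [h1, mul_zero] at this
      exact zero_ne_one this
  have hbL : ∀ w, b w ∈ L := fun w => IntermediateField.subset_adjoin k _ ⟨w, rfl⟩
  have haL : ∀ w, a w ∈ L := by
    intro w
    by_cases hw : w = 0
    · rw [hw, h.a0]
      exact IntermediateField.algebraMap_mem _ _
    · rw [eq_inv_of_mul_eq_one_left (h.ab w hw)]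
      exact inv_mem (hbL w)
  have hLinj : Function.Injective (fun x : L => (x : K)) := Subtype.val_injective
  have hc : ∀ x : k, ((algebraMap k L x : L) : K) = algebraMap k K x := fun x => rfl
  have hsol : Sol (fun w v => algebraMap k L (e w v)) (algebraMap k L s) (algebraMap k L κ)
      (fun w => (⟨a w, haL w⟩ : L)) (fun w => (⟨b w, hbL w⟩ : L)) := by
    refine ⟨?_, ?_, ?_, ?_⟩
    · exact Subtype.ext h.a0
    · exact Subtype.ext h.b0
    · intro w hw
      exact Subtype.ext (h.ab w hw)
    · intro q hq v
      apply Subtype.ext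
      have := h.eq q hq v
      push_cast
      exact this
  refine isAlgebraic_of_universal_derivation (Set.finite_range b) ?_ ⟨p, rfl⟩
  rintro _ ⟨q, rfl⟩
  have hcard : ((Fintype.card G : ℕ) : L) = algebraMap k L (Fintype.card G : k) := by
    rw [map_natCast]
  haveI : CharZero L := charZero_of_injective_algebraMap (algebraMap k L).injective
  refine key (k := k) (V := Ω[L⁄k]) hsol (fun w v => by rw [hsym]) (fun w v => by rw [hneg]) ?_ ?_ ?_ ?_
    (KaehlerDifferential.D k L) (fun w v => Derivation.map_algebraMap _ _) (Derivation.map_algebraMap _ _)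
    (Derivation.map_algebraMap _ _) ?_ q
  · intro w u
    split_ifs with h1
    · rw [← h1, hcard, ← horth' w, map_sum]
      exact sum_congr rfl fun v _ => (map_mul _ _ _).symm
    · rw [← map_zero (algebraMap k L), ← horth w u h1, map_sum]
      exact sum_congr rfl fun v _ => (map_mul _ _ _).symm
  · exact Nat.cast_ne_zero.2 Fintype.card_ne_zero
  · intro w h1
    exact hb w (congrArg Subtype.val h1)
  · rw [hcard]
    have : algebraMap k L (Fintype.card G : k) - 2 * (algebraMap k L s ^ 2 - 1) =
        algebraMap k L ((Fintype.card G : k) - 2 * (s ^ 2 - 1)) := by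
      simp only [map_sub, map_mul, map_pow, map_one, map_ofNat]
    rw [this]
    exact (map_ne_zero _).2 hθ
  · intro w hw
    have : (⟨b w, hbL w⟩ : L) * ⟨b (-w), hbL (-w)⟩ = algebraMap k L (γ w) := Subtype.ext (hγ w hw)
    rw [this]
    exact Derivation.map_algebraMap _ _

end Pool.Agent.Stark
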